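import Pool.Agent.Helper35.HS3.GoalsC

namespace Pool.Agent.Helper8.HS3.ONED

open Pool.Agent.Helper35.HS3
open MeasureTheory Set Filter Topology Metric
open scoped ContDiff

theorem proof : ONED_stmt := by
  intro f u hu heq h0
  have hV : ContDiff ℝ 2 (fun s : ℝ => u (s • bv 0)) :=
    hu.comp (contDiff_id.smul contDiff_const)
  set V : ℝ → ℝ := fun s => u (s • bv 0) with hVdef
  have huV : ∀ x : E, u x = V (x 0) := fun x => h0 x
  refine ⟨V, hV, fun s => ?_, huV⟩
  have hVd : ∀ t, HasDerivAt V (deriv V t) t := fun t =>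
    ((hV.differentiable (by norm_num)) t).hasDerivAt
  have hV' : ContDiff ℝ 1 (deriv V) := by
    have : ContDiff ℝ (1 + 1) V := by
      have e : (1 + 1 : WithTop ℕ∞) = 2 := by norm_num
      rw [e]; exact hV
    exact (contDiff_succ_iff_deriv.1 this).2.2
  have hVdd : ∀ t, HasDerivAt (deriv V) (deriv (deriv V) t) t := fun t =>
    ((hV'.differentiable (by norm_num)) t).hasDerivAt
  set x : E := s • bv 0 with hx
  have hx0 : x 0 = s := by simp [hx]
  have h1 := lap_comp (H := V) (H' := deriv V) (H'' := deriv (deriv V) (x 0))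
    (u := fun y : E => y 0) (x := x) (Filter.Eventually.of_forall hVd) (hVdd _)
    (contDiff_coord 0).contDiffAt
  have h2 : gsq (fun y : E => y 0) x = 1 := by
    unfold gsq
    simp only [pd_coord]
    simp
  have h3 : lap (fun y : E => y 0) x = 0 := by
    unfold lap
    refine Finset.sum_eq_zero fun i _ => ?_
    have e : pd i (fun y : E => y 0) = fun _ => (if (0 : Fin 3) = i then (1 : ℝ) else 0) := by
      funext y
      exact pd_coord i 0 y
    rw [e, pd_const]
  have h4 : lap u x = lap (fun y : E => V (y 0)) x := by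
    have : u = fun y : E => V (y 0) := funext huV
    rw [← this]
  rw [h2, h3] at h1
  have h5 := heq x
  rw [h4] at h5
  have h6 : lap (fun y : E => V (y 0)) x = deriv (deriv V) (x 0) := by
    rw [h1]; ring
  rw [h6, huV x, hx0] at h5
  exact h5

end Pool.Agent.Helper8.HS3.ONED
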