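import Pool.Agent.Helper35.HS3.GoalsB

namespace Pool.Agent.Helper8.HS3.SUPB

open Pool.Agent.Helper35.HS3
open MeasureTheory Set Filter Topology Metric
open scoped ContDiff

theorem proof (hMV : MV_stmt) (hTHE : THE_stmt) : SUPB_stmt := by
  intro f a A K u hN hu heq z x r hr hxz
  obtain ⟨θ, hθ2, hθ0, hθ1, hθ3, hθ⟩ := hTHE
  have huc : Continuous u := hu.continuous
  have hN1 := hN.nonneg
  have hA := hN.A_pos
  have hAa := hN.neg_A
  have hk := k0_pos
  set J : ℝ := ∫ y, kk y * |u (x + r • y)| with hJ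
  have hr3 : 0 < r ^ 3 := by positivity
  have hcx : Continuous fun y : E => u (x + r • y) := by fun_prop
  -- J is bounded by the integral
  have hJ1 : r ^ 3 * J ≤ ∫ y in ball z (2 * r), |u y| := by
    have h1 := kk_upper (φ := fun y => |u y|) huc.abs x hr (fun y _ => abs_nonneg _)
    have h2 : ∫ y in ball x r, |u y| ≤ ∫ y in ball z (2 * r), |u y| := by
      apply setIntegral_mono_set (integrableOn_ball huc.abs z (2 * r))
      · exact Filter.Eventually.of_forall fun y => abs_nonneg _
      · refine (ball_subset_ball' ?_).eventuallyLE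
        rw [dist_eq_norm]
        linarith
    have h3 : r ^ 3 * J ≤ r ^ 3 * ((r ^ 3)⁻¹ * ∫ y in ball x r, |u y|) :=
      mul_le_mul_of_nonneg_left h1 hr3.le
    have h4 : r ^ 3 * ((r ^ 3)⁻¹ * ∫ y in ball x r, |u y|) = ∫ y in ball x r, |u y| := by
      field_simp
    linarith
  have hint : Integrable fun y : E => kk y * |u (x + r • y)| := integrable_kk_mul hcx.abs
  -- part 1
  have hp1 : k0 * u x ≤ J := by
    have h1 := hMV u x r 0 hu hr (fun y _ => by rw [heq]; exact hN1 _)
    have h2 : ∫ y, kk y * u (x + r • y) ≤ J := by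
      refine integral_mono (integrable_kk_mul hcx) hint fun y => ?_
      exact mul_le_mul_of_nonneg_left (le_abs_self _) (kk_nonneg y)
    linarith
  -- part 2
  have hw : ContDiff ℝ 2 (fun y => - u y - A) := (hu.neg).sub contDiff_const
  have hv : ContDiff ℝ 2 (fun y => θ (- u y - A)) := hθ2.comp hw
  have hθd : ∀ t, HasDerivAt θ (deriv θ t) t := fun t =>
    ((hθ2.differentiable (by norm_num)) t).hasDerivAt
  have hθ' : ContDiff ℝ 1 (deriv θ) := by
    have : ContDiff ℝ (1 + 1) θ := by
      have e : (1 + 1 : WithTop ℕ∞) = 2 := by norm_num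
      rw [e]; exact hθ2
    exact (contDiff_succ_iff_deriv.1 this).2.2
  have hθdd : ∀ t, HasDerivAt (deriv θ) (deriv (deriv θ) t) t := fun t =>
    ((hθ'.differentiable (by norm_num)) t).hasDerivAt
  have hzero : ∀ t, t ≤ 0 → deriv θ t = 0 := by
    intro t ht
    have h1 : HasDerivWithinAt θ (deriv θ t) (Iic t) t := (hθd t).hasDerivWithinAt
    have h2 : HasDerivWithinAt θ 0 (Iic t) t := by
      refine (hasDerivWithinAt_const t (Iic t) (0 : ℝ)).congr (fun s hs => ?_) (hθ0 t ht)
      exact hθ0 s (le_trans hs ht)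
    exact (uniqueDiffWithinAt_Iic t).eq_deriv _ h1 h2
  have hlap : ∀ y, 0 ≤ lap (fun y => θ (- u y - A)) y := by
    intro y
    have h1 := lap_comp (H := θ) (H' := deriv θ) (H'' := deriv (deriv θ) (- u y - A))
      (u := fun y => - u y - A) (x := y) (Filter.Eventually.of_forall hθd) (hθdd _) hw.contDiffAt
    have h2 : lap (fun y => - u y - A) y = - f (u y) := by
      have h3 := lap_sub (u := fun y => - u y) (v := fun _ => A) (x := y) hu.neg.contDiffAt
        contDiff_const.contDiffAt
      rw [lap_neg, lap_const, heq] at h3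
      linarith
    rw [h1, h2]
    have h4 : 0 ≤ deriv (deriv θ) (- u y - A) * gsq (fun y => - u y - A) y :=
      mul_nonneg (hθ3 _) (gsq_nonneg _ _)
    have h5 : 0 ≤ deriv θ (- u y - A) * - f (u y) := by
      rcases le_or_gt (- u y - A) 0 with h | h
      · rw [hzero _ h]; simp
      · rw [hN.left (u y) (by linarith)]; simp
    linarith
  have hp2 : k0 * (- u x - A - 1) ≤ J := by
    have h1 := hMV (fun y => θ (- u y - A)) x r 0 hv hr (fun y _ => hlap y)
    have h2 : ∫ y, kk y * θ (- u (x + r • y) - A) ≤ J := by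
      refine integral_mono (integrable_kk_mul ?_) hint fun y => ?_
      · have : Continuous fun y : E => θ (- u y - A) := hv.continuous
        exact this.comp (by fun_prop : Continuous fun y : E => x + r • y)
      · refine mul_le_mul_of_nonneg_left ?_ (kk_nonneg y)
        refine (hθ _).2.1.trans (max_le (abs_nonneg _) ?_)
        have := neg_le_abs (u (x + r • y))
        linarith
    have h3 : k0 * (- u x - A - 1) ≤ k0 * θ (- u x - A) :=
      mul_le_mul_of_nonneg_left (by have := (hθ (- u x - A)).2.2; linarith) hk.le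
    have h4 : k0 * θ (- u x - A) + 0 * k1 * r ^ 2 / 8 ≤ ∫ y, kk y * θ (- u (x + r • y) - A) := h1
    linarith
  have hJx : k0 * (|u x| - A - 1) ≤ J := by
    rcases le_total 0 (u x) with h | h
    · rw [abs_of_nonneg h]
      nlinarith
    · rw [abs_of_nonpos h]
      exact hp2
  calc k0 * (|u x| - A - 1) * r ^ 3 ≤ J * r ^ 3 := mul_le_mul_of_nonneg_right hJx hr3.le
    _ = r ^ 3 * J := by ring
    _ ≤ _ := hJ1

end Pool.Agent.Helper8.HS3.SUPB
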